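import Pool.Agent.Lib.MP_50ef00_gt.Pos

/-!
# MP_50ef00_gt, module P2: attaching a triangle is attaching a two-cell
-/

namespace Pool.Agent.Lib.MP_50ef00_gt.H88

set_option linter.unusedSectionVars false
set_option linter.unusedVariables false

open scoped unitInterval
open Pool.Agent.Lib.MP_50ef00_gt Topology

/-- point of the triangle with barycentric coordinates `(1 - p - q, p, q)` -/
def tpt (b c : ℕ) (p q : ℝ) : ℕ → ℝ :=
  fun i => if i = 0 then 1 - p - q else if i = b then p else if i = c then q else 0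

lemma tpt_cont (b c : ℕ) {T : Type*} [TopologicalSpace T] {p q : T → ℝ} (hp : Continuous p)
    (hq : Continuous q) : Continuous (fun t => tpt b c (p t) (q t)) := by
  apply continuous_pi
  intro i
  unfold tpt
  split_ifs
  · exact (continuous_const.sub hp).sub hq
  · exact hp
  · exact hq
  · exact continuous_const

section
variable {b c : ℕ} (hb : b ≠ 0) (hc : c ≠ 0) (hbc : b ≠ c)
include hb hc hbc

lemma tpt_mem {K : Finset (Finset ℕ)} (h : ({0, b, c} : Finset ℕ) ∈ K) {p q : ℝ} (hp : 0 ≤ p)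
    (hq : 0 ≤ q) (hpq : p + q ≤ 1) : tpt b c p q ∈ Rz K := by
  refine ⟨fun i => ?_, {0, b, c}, h, fun i hi => ?_, ?_⟩
  · unfold tpt
    split_ifs <;> linarith
  · simp only [Finset.mem_insert, Finset.mem_singleton, not_or] at hi
    simp [tpt, hi.1, hi.2.1, hi.2.2]
  · rw [Finset.sum_insert (by simp [hb.symm, hc.symm]), Finset.sum_insert (by simp [hbc]),
      Finset.sum_singleton]
    simp [tpt, hb, hc, hbc.symm]

lemma tpt_b (p q : ℝ) : tpt b c p q b = p := by simp [tpt, hb]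

lemma tpt_c (p q : ℝ) : tpt b c p q c = q := by simp [tpt, hc, hbc.symm]

lemma tpt_zero : tpt b c 0 0 = Pi.single 0 1 := by
  funext i
  by_cases hi : i = 0
  · subst hi; simp [tpt]
  · simp [tpt, hi]

/-- a point of the open triangle is not in `|Z|` -/
lemma tpt_not_mem {Z : Finset (Finset ℕ)} (hZ : IsComplex Z) (h : ({0, b, c} : Finset ℕ) ∉ Z)
    {p q : ℝ} (hp : 0 < p) (hq : 0 < q) (hpq : p + q < 1) : tpt b c p q ∉ Rz Z := by
  rintro ⟨-, s, hs, h0, -⟩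
  apply h
  refine (hZ s hs).2 _ ?_ ⟨0, by simp⟩
  intro i hi
  by_contra his
  have := h0 i his
  simp only [Finset.mem_insert, Finset.mem_singleton] at hi
  rcases hi with rfl | rfl | rfl
  · simp [tpt] at this; linarith
  · rw [tpt_b hb hc hbc] at this; linarith
  · rw [tpt_c hb hc hbc] at this; linarith

end

/-! ### the arc -/

/-- height -/
noncomputable def yy (α : ℝ) : ℝ := min 1 (min (4 * α) (2 - 2 * α))

/-- abscissa -/
noncomputable def xx (α : ℝ) : ℝ := max (-1 / 2) (min (1 / 2) (4 * α - 3 / 2))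

lemma yy_cont : Continuous yy := by unfold yy; fun_prop

lemma xx_cont : Continuous xx := by unfold xx; fun_prop

lemma reg1 {α : ℝ} (_ : 0 ≤ α) (h : α ≤ 1 / 4) : yy α = 4 * α ∧ xx α = -1 / 2 := by
  constructor
  · unfold yy
    rw [min_eq_left (by linarith : 4 * α ≤ 2 - 2 * α), min_eq_right (by linarith)]
  · unfold xx
    rw [min_eq_right (by linarith), max_eq_left (by linarith)]

lemma reg2 {α : ℝ} (h0 : 1 / 4 ≤ α) (h : α ≤ 1 / 2) : yy α = 1 ∧ xx α = 4 * α - 3 / 2 := by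
  constructor
  · unfold yy
    rw [min_eq_left]
    exact le_min (by linarith) (by linarith)
  · unfold xx
    rw [min_eq_right (by linarith), max_eq_right (by linarith)]

lemma reg3 {α : ℝ} (h0 : 1 / 2 ≤ α) (h : α ≤ 1) : yy α = 2 - 2 * α ∧ xx α = 1 / 2 := by
  constructor
  · unfold yy
    rw [min_eq_right (by linarith : 2 - 2 * α ≤ 4 * α), min_eq_right (by linarith)]
  · unfold xx
    rw [min_eq_left (by linarith), max_eq_right (by linarith)]

lemma reg {α : ℝ} (h0 : 0 ≤ α) (h : α ≤ 1) :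
    (α ≤ 1 / 4 ∧ yy α = 4 * α ∧ xx α = -1 / 2) ∨
    (1 / 4 ≤ α ∧ α ≤ 1 / 2 ∧ yy α = 1 ∧ xx α = 4 * α - 3 / 2) ∨
    (1 / 2 ≤ α ∧ yy α = 2 - 2 * α ∧ xx α = 1 / 2) := by
  rcases le_total α (1 / 4) with h1 | h1
  · exact Or.inl ⟨h1, reg1 h0 h1⟩
  · rcases le_total α (1 / 2) with h2 | h2
    · exact Or.inr (Or.inl ⟨h1, h2, reg2 h1 h2⟩)
    · exact Or.inr (Or.inr ⟨h2, reg3 h2 h⟩)

lemma bounds {α : ℝ} (h0 : 0 ≤ α) (h : α ≤ 1) : 0 ≤ yy α ∧ yy α ≤ 1 ∧ -1 / 2 ≤ xx α ∧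
    xx α ≤ 1 / 2 := by
  rcases reg h0 h with ⟨h1, h2, h3⟩ | ⟨h1, h1', h2, h3⟩ | ⟨h1, h2, h3⟩ <;> rw [h2, h3] <;>
    refine ⟨?_, ?_, ?_, ?_⟩ <;> linarith

lemma yy_pos {α : ℝ} (h0 : 0 < α) (h : α < 1) : 0 < yy α := by
  rcases reg h0.le h.le with ⟨h1, h2, h3⟩ | ⟨h1, h1', h2, h3⟩ | ⟨h1, h2, h3⟩ <;> rw [h2] <;>
    linarith

lemma arc_inj {α β : ℝ} (a0 : 0 ≤ α) (a1 : α ≤ 1) (b0 : 0 ≤ β) (b1 : β ≤ 1)
    (hx : xx α = xx β) (hy : yy α = yy β) : α = β := by
  rcases reg a0 a1 with ⟨h1, h2, h3⟩ | ⟨h1, h1', h2, h3⟩ | ⟨h1, h2, h3⟩ <;>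
  rcases reg b0 b1 with ⟨k1, k2, k3⟩ | ⟨k1, k1', k2, k3⟩ | ⟨k1, k2, k3⟩ <;>
  rw [h2, k2] at hy <;> rw [h3, k3] at hx <;> linarith

/-- on the arc `max (2 |x|) y = 1` -/
lemma arc_max {α : ℝ} (a0 : 0 ≤ α) (a1 : α ≤ 1) {ρ : ℝ} (hρ : 0 ≤ ρ) :
    max (2 * |ρ * xx α|) (ρ * yy α) = ρ := by
  have hb := bounds a0 a1
  rw [abs_mul, abs_of_nonneg hρ]
  have hx : |xx α| ≤ 1 / 2 := abs_le.mpr ⟨by linarith, by linarith⟩
  have e1 : 2 * (ρ * |xx α|) ≤ ρ := by nlinarith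
  have e2 : ρ * yy α ≤ ρ := by nlinarith
  rcases reg a0 a1 with ⟨h1, h2, h3⟩ | ⟨h1, h1', h2, h3⟩ | ⟨h1, h2, h3⟩
  · apply le_antisymm (max_le e1 e2)
    apply le_max_of_le_left
    rw [h3, abs_of_nonpos (by norm_num)]
    linarith
  · apply le_antisymm (max_le e1 e2)
    apply le_max_of_le_right
    rw [h2]; linarith
  · apply le_antisymm (max_le e1 e2)
    apply le_max_of_le_left
    rw [h3, abs_of_nonneg (by norm_num)]
    linarith

/-- first coordinate -/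
noncomputable def PP (ρ α : ℝ) : ℝ := ρ * yy α * (1 / 2 - ρ * xx α)

/-- second coordinate -/
noncomputable def QQ (ρ α : ℝ) : ℝ := ρ * yy α * (1 / 2 + ρ * xx α)

lemma PQ_nonneg {ρ α : ℝ} (r0 : 0 ≤ ρ) (r1 : ρ ≤ 1) (a0 : 0 ≤ α) (a1 : α ≤ 1) :
    0 ≤ PP ρ α ∧ 0 ≤ QQ ρ α ∧ PP ρ α + QQ ρ α ≤ 1 := by
  have hb := bounds a0 a1
  have e : |ρ * xx α| ≤ 1 / 2 := by
    rw [abs_mul, abs_of_nonneg r0]
    have hx : |xx α| ≤ 1 / 2 := abs_le.mpr ⟨by linarith, by linarith⟩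
    have := abs_nonneg (xx α)
    nlinarith
  have e1 := (abs_le.mp e).1
  have e2 := (abs_le.mp e).2
  have e3 : 0 ≤ ρ * yy α := mul_nonneg r0 hb.1
  refine ⟨mul_nonneg e3 (by linarith), mul_nonneg e3 (by linarith), ?_⟩
  have : PP ρ α + QQ ρ α = ρ * yy α := by unfold PP QQ; ring
  rw [this]
  nlinarith

lemma PQ_pos {ρ α : ℝ} (r0 : 0 < ρ) (r1 : ρ < 1) (a0 : 0 < α) (a1 : α < 1) :
    0 < PP ρ α ∧ 0 < QQ ρ α ∧ PP ρ α + QQ ρ α < 1 := by
  have hb := bounds a0.le a1.le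
  have hy := yy_pos a0 a1
  have e : |ρ * xx α| < 1 / 2 := by
    rw [abs_mul, abs_of_pos r0]
    have hx : |xx α| ≤ 1 / 2 := abs_le.mpr ⟨by linarith, by linarith⟩
    have := abs_nonneg (xx α)
    nlinarith
  have e1 := (abs_lt.mp e).1
  have e2 := (abs_lt.mp e).2
  have e3 : 0 < ρ * yy α := mul_pos r0 hy
  refine ⟨mul_pos e3 (by linarith), mul_pos e3 (by linarith), ?_⟩
  have : PP ρ α + QQ ρ α = ρ * yy α := by unfold PP QQ; ring
  rw [this]
  nlinarith

/-- injectivity away from the base point -/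
lemma PQ_inj {ρ α ρ' α' : ℝ} (r0 : 0 < ρ) (a0 : 0 < α) (a1 : α < 1) (r0' : 0 < ρ')
    (a0' : 0 < α') (a1' : α' < 1) (h1 : PP ρ α = PP ρ' α') (h2 : QQ ρ α = QQ ρ' α') :
    ρ = ρ' ∧ α = α' := by
  have s1 : ρ * yy α = ρ' * yy α' := by
    have e1 : PP ρ α + QQ ρ α = ρ * yy α := by unfold PP QQ; ring
    have e2 : PP ρ' α' + QQ ρ' α' = ρ' * yy α' := by unfold PP QQ; ring
    linarith
  have hpos : 0 < ρ * yy α := mul_pos r0 (yy_pos a0 a1)
  have s2 : ρ * xx α = ρ' * xx α' := by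
    have e1 : QQ ρ α - PP ρ α = ρ * yy α * (2 * (ρ * xx α)) := by unfold PP QQ; ring
    have e2 : QQ ρ' α' - PP ρ' α' = ρ * yy α * (2 * (ρ' * xx α')) := by
      rw [s1]; unfold PP QQ; ring
    have e3 : ρ * yy α * (2 * (ρ * xx α)) = ρ * yy α * (2 * (ρ' * xx α')) := by
      rw [← e1, ← e2, h1, h2]
    have := mul_left_cancel₀ hpos.ne' e3
    linarith
  have m1 := arc_max a0.le a1.le r0.le
  have m2 := arc_max a0'.le a1'.le r0'.le
  rw [s1, s2, m2] at m1
  refine ⟨m1.symm, ?_⟩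
  subst m1
  apply arc_inj a0.le a1.le a0'.le a1'.le
  · exact mul_left_cancel₀ r0.ne' s2
  · exact mul_left_cancel₀ r0.ne' s1

/-- surjectivity -/
lemma PQ_surj {p q : ℝ} (hp : 0 ≤ p) (hq : 0 ≤ q) (h0 : 0 < p + q) (h1 : p + q ≤ 1) :
    ∃ ρ α : ℝ, 0 ≤ ρ ∧ ρ ≤ 1 ∧ 0 ≤ α ∧ α ≤ 1 ∧ PP ρ α = p ∧ QQ ρ α = q := by
  set u := p + q with hu
  set v := (q - p) / (2 * u) with hv
  have hvu : 2 * u * v = q - p := by rw [hv]; field_simp
  have hv1 : |v| ≤ 1 / 2 := by
    rw [abs_le]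
    constructor
    · by_contra h
      push Not at h
      nlinarith
    · by_contra h
      push Not at h
      nlinarith
  have hv2 := abs_le.mp hv1
  -- it is enough to solve `ρ y = u`, `ρ x = v`
  suffices H : ∃ ρ α : ℝ, 0 ≤ ρ ∧ ρ ≤ 1 ∧ 0 ≤ α ∧ α ≤ 1 ∧ ρ * yy α = u ∧ ρ * xx α = v by
    obtain ⟨ρ, α, r0, r1, a0, a1, e1, e2⟩ := H
    refine ⟨ρ, α, r0, r1, a0, a1, ?_, ?_⟩
    · unfold PP; rw [e1, e2]; nlinarith
    · unfold QQ; rw [e1, e2]; nlinarith
  rcases le_total (2 * |v|) u with h | h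
  · -- top side
    have hva := abs_le.mp (by linarith : |v| ≤ u / 2)
    have hx1 : -1 / 2 ≤ v / u := by rw [le_div_iff₀ h0]; linarith
    have hx2 : v / u ≤ 1 / 2 := by rw [div_le_iff₀ h0]; linarith
    obtain ⟨e1, e2⟩ := reg2 (α := (v / u + 3 / 2) / 4) (by linarith) (by linarith)
    refine ⟨u, (v / u + 3 / 2) / 4, h0.le, h1, by linarith, by linarith, ?_, ?_⟩
    · rw [e1]; ring
    · rw [e2]; field_simp; ring
  · have hvpos : 0 < |v| := by linarith
    rcases le_total v 0 with hs | hs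
    · rw [abs_of_nonpos hs] at h hvpos hv1
      have hr : 0 < 2 * -v := by linarith
      have q1 : u / (2 * -v) ≤ 1 := by rw [div_le_one hr]; exact h
      have q0 : 0 < u / (2 * -v) := div_pos h0 hr
      obtain ⟨e1, e2⟩ := reg1 (α := (u / (2 * -v)) / 4) (by linarith) (by linarith)
      refine ⟨2 * -v, (u / (2 * -v)) / 4, hr.le, by linarith, by linarith, by linarith, ?_, ?_⟩
      · rw [e1]
        have : 2 * -v * (4 * (u / (2 * -v) / 4)) = (2 * -v) * (u / (2 * -v)) := by ring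
        rw [this, mul_div_cancel₀ _ hr.ne']
      · rw [e2]; ring
    · rw [abs_of_nonneg hs] at h hvpos hv1
      have hr : 0 < 2 * v := by linarith
      have q1 : u / (2 * v) ≤ 1 := by rw [div_le_one hr]; exact h
      have q0 : 0 < u / (2 * v) := div_pos h0 hr
      obtain ⟨e1, e2⟩ := reg3 (α := 1 - (u / (2 * v)) / 2) (by linarith) (by linarith)
      refine ⟨2 * v, 1 - (u / (2 * v)) / 2, hr.le, by linarith, by linarith, by linarith, ?_, ?_⟩
      · rw [e1]; field_simp; ring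
      · rw [e2]; ring

lemma PP_cont {T : Type*} [TopologicalSpace T] {f g : T → ℝ} (hf : Continuous f)
    (hg : Continuous g) : Continuous (fun t => PP (f t) (g t)) := by
  unfold PP
  have h1 := yy_cont.comp hg
  have h2 := xx_cont.comp hg
  exact (hf.mul h1).mul (continuous_const.sub (hf.mul h2))

lemma QQ_cont {T : Type*} [TopologicalSpace T] {f g : T → ℝ} (hf : Continuous f)
    (hg : Continuous g) : Continuous (fun t => QQ (f t) (g t)) := by
  unfold QQ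
  have h1 := yy_cont.comp hg
  have h2 := xx_cont.comp hg
  exact (hf.mul h1).mul (continuous_const.add (hf.mul h2))

lemma yy_zero : yy 0 = 0 := by rw [(reg1 le_rfl (by norm_num)).1]; ring
lemma yy_one : yy 1 = 0 := by rw [(reg3 (by norm_num) le_rfl).1]; ring
lemma PP_zero (ρ : ℝ) : PP ρ 0 = 0 := by unfold PP; rw [yy_zero]; ring
lemma QQ_zero (ρ : ℝ) : QQ ρ 0 = 0 := by unfold QQ; rw [yy_zero]; ring
lemma PP_one (ρ : ℝ) : PP ρ 1 = 0 := by unfold PP; rw [yy_one]; ring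
lemma QQ_one (ρ : ℝ) : QQ ρ 1 = 0 := by unfold QQ; rw [yy_one]; ring
lemma PP_zero' (α : ℝ) : PP 0 α = 0 := by unfold PP; ring
lemma QQ_zero' (α : ℝ) : QQ 0 α = 0 := by unfold QQ; ring

/-! ### realizations are closed -/

lemma isClosed_Rz (K : Finset (Finset ℕ)) : IsClosed (Rz K) := by
  have : Rz K = ⋃ s ∈ (K : Set (Finset ℕ)), {x : ℕ → ℝ | (∀ i, 0 ≤ x i) ∧
      (∀ i, i ∉ s → x i = 0) ∧ ∑ i ∈ s, x i = 1} := by
    ext x
    simp only [Rz, Set.mem_ofPred_eq, Set.mem_iUnion, Finset.mem_coe]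
    constructor
    · rintro ⟨h1, s, hs, h2, h3⟩
      exact ⟨s, hs, h1, h2, h3⟩
    · rintro ⟨s, hs, h1, h2, h3⟩
      exact ⟨h1, s, hs, h2, h3⟩
  rw [this]
  apply Set.Finite.isClosed_biUnion K.finite_toSet
  intro s _
  have e : {x : ℕ → ℝ | (∀ i, 0 ≤ x i) ∧ (∀ i, i ∉ s → x i = 0) ∧ ∑ i ∈ s, x i = 1} =
      (⋂ i, {x : ℕ → ℝ | 0 ≤ x i}) ∩ ((⋂ i, ⋂ (_ : i ∉ s), {x : ℕ → ℝ | x i = 0}) ∩
        {x : ℕ → ℝ | ∑ i ∈ s, x i = 1}) := by
    ext x
    simp
  rw [e]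
  refine IsClosed.inter (isClosed_iInter fun i => ?_) (IsClosed.inter
    (isClosed_iInter fun i => isClosed_iInter fun _ => ?_) ?_)
  · exact isClosed_le continuous_const (continuous_apply i)
  · exact isClosed_eq (continuous_apply i) continuous_const
  · exact isClosed_eq (by fun_prop) continuous_const

/-! ### the loop and its filling -/

section
variable {Z : Finset (Finset ℕ)} {b c : ℕ} (hb : b ≠ 0) (hc : c ≠ 0) (hbc : b ≠ c)
include hb hc hbc

lemma seg_0b (h0 : {0} ∈ Z) (hb' : {b} ∈ Z) (h0b : ({0, b} : Finset ℕ) ∈ Z) (r : I) :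
    (seg Z 0 b h0 hb' h0b r).1 = tpt b c r 0 := by
  funext i
  by_cases h1 : i = 0
  · subst h1; simp [seg, tpt, hb.symm]
  · by_cases h2 : i = b
    · subst h2; simp [seg, tpt, h1]
    · simp [seg, tpt, h1, h2]

lemma seg_bc (hb' : {b} ∈ Z) (hc' : {c} ∈ Z) (hbc' : ({b, c} : Finset ℕ) ∈ Z) (r : I) :
    (seg Z b c hb' hc' hbc' r).1 = tpt b c (1 - r) r := by
  funext i
  by_cases h1 : i = 0
  · subst h1; simp [seg, tpt, hb.symm, hc.symm]
  · by_cases h2 : i = b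
    · subst h2; simp [seg, tpt, h1, hbc]
    · by_cases h3 : i = c
      · subst h3; simp [seg, tpt, h1, h2]
      · simp [seg, tpt, h1, h2, h3]

lemma seg_c0 (hc' : {c} ∈ Z) (h0 : {0} ∈ Z) (hc0 : ({c, 0} : Finset ℕ) ∈ Z) (r : I) :
    (seg Z c 0 hc' h0 hc0 r).1 = tpt b c 0 (1 - r) := by
  funext i
  by_cases h1 : i = 0
  · subst h1; simp [seg, tpt, hc.symm]
  · by_cases h2 : i = b
    · subst h2; simp [seg, tpt, h1, hbc]
    · by_cases h3 : i = c
      · subst h3; simp [seg, tpt, h1, h2]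
      · simp [seg, tpt, h1, h2, h3]

/-- the boundary of the triangle -/
noncomputable def bd (h0 : {0} ∈ Z) (hb' : {b} ∈ Z) (hc' : {c} ∈ Z)
    (h0b : ({0, b} : Finset ℕ) ∈ Z) (hbc' : ({b, c} : Finset ℕ) ∈ Z)
    (hc0 : ({c, 0} : Finset ℕ) ∈ Z) : Path (vtx Z 0 h0) (vtx Z 0 h0) :=
  ((seg Z 0 b h0 hb' h0b).trans (seg Z b c hb' hc' hbc')).trans (seg Z c 0 hc' h0 hc0)

lemma bd_val (h0 : {0} ∈ Z) (hb' : {b} ∈ Z) (hc' : {c} ∈ Z)
    (h0b : ({0, b} : Finset ℕ) ∈ Z) (hbc' : ({b, c} : Finset ℕ) ∈ Z)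
    (hc0 : ({c, 0} : Finset ℕ) ∈ Z) (α : I) :
    (bd h0 hb' hc' h0b hbc' hc0 α).1 = tpt b c (PP 1 α) (QQ 1 α) := by
  have a0 := α.2.1
  have a1 := α.2.2
  unfold bd
  rw [Path.trans_apply]
  split_ifs with h
  · rw [Path.trans_apply]
    split_ifs with h'
    · rw [seg_0b hb hc hbc]
      have h'' : (α : ℝ) ≤ 1 / 4 := by
        simp only at h'; linarith
      obtain ⟨e1, e2⟩ := reg1 a0 h''
      unfold PP QQ
      rw [e1, e2]
      simp only
      congr 1 <;> ring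
    · rw [seg_bc hb hc hbc]
      have h'' : 1 / 4 ≤ (α : ℝ) := by
        simp only at h'; linarith
      obtain ⟨e1, e2⟩ := reg2 h'' h
      unfold PP QQ
      rw [e1, e2]
      simp only
      congr 1 <;> ring
  · rw [seg_c0 hb hc hbc]
    obtain ⟨e1, e2⟩ := reg3 (by linarith : 1 / 2 ≤ (α : ℝ)) a1
    unfold PP QQ
    rw [e1, e2]
    simp only
    congr 1 <;> ring

/-- the characteristic map of the triangle -/
noncomputable def hh (r α : I) : Rz (insert ({0, b, c} : Finset ℕ) Z) :=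
  ⟨tpt b c (PP (1 - r) α) (QQ (1 - r) α),
    have h := PQ_nonneg (ρ := 1 - r) (α := α) (by linarith [r.2.2]) (by linarith [r.2.1])
      α.2.1 α.2.2
    tpt_mem hb hc hbc (Finset.mem_insert_self _ _) h.1 h.2.1 h.2.2⟩

lemma hh_cont : Continuous (fun z : I × I => hh (Z := Z) hb hc hbc z.1 z.2) := by
  apply Continuous.subtype_mk
  apply tpt_cont
  · apply PP_cont <;> fun_prop
  · apply QQ_cont <;> fun_prop

/-- the filling -/
noncomputable def HH (h0 : {0} ∈ Z) (hb' : {b} ∈ Z) (hc' : {c} ∈ Z)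
    (h0b : ({0, b} : Finset ℕ) ∈ Z) (hbc' : ({b, c} : Finset ℕ) ∈ Z)
    (hc0 : ({c, 0} : Finset ℕ) ∈ Z) : Fill (bd h0 hb' hc' h0b hbc' hc0)
      (incl (Finset.subset_insert ({0, b, c} : Finset ℕ) Z)) where
  toFun r :=
    { toFun := fun α => hh (Z := Z) hb hc hbc r α
      continuous_toFun := (hh_cont hb hc hbc).comp (Continuous.prodMk_right r)
      source' := by
        apply Subtype.ext
        change tpt b c (PP (1 - r) ((0 : I) : ℝ)) (QQ (1 - r) ((0 : I) : ℝ)) = Pi.single 0 1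
        rw [Set.Icc.coe_zero, PP_zero, QQ_zero, tpt_zero hb hc hbc]
      target' := by
        apply Subtype.ext
        change tpt b c (PP (1 - r) ((1 : I) : ℝ)) (QQ (1 - r) ((1 : I) : ℝ)) = Pi.single 0 1
        rw [Set.Icc.coe_one, PP_one, QQ_one, tpt_zero hb hc hbc] }
  continuous_toFun := by
    rw [← Path.continuous_uncurry_iff]
    exact hh_cont hb hc hbc
  source' := by
    apply Path.ext
    funext α
    apply Subtype.ext
    change tpt b c (PP (1 - ((0 : I) : ℝ)) α) (QQ (1 - ((0 : I) : ℝ)) α) =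
      (bd h0 hb' hc' h0b hbc' hc0 α).1
    rw [bd_val hb hc hbc, Set.Icc.coe_zero, sub_zero]
  target' := by
    apply Path.ext
    funext α
    apply Subtype.ext
    change tpt b c (PP (1 - ((1 : I) : ℝ)) α) (QQ (1 - ((1 : I) : ℝ)) α) = Pi.single 0 1
    rw [Set.Icc.coe_one, sub_self, PP_zero', QQ_zero', tpt_zero hb hc hbc]

lemma HH_apply (h0 : {0} ∈ Z) (hb' : {b} ∈ Z) (hc' : {c} ∈ Z)
    (h0b : ({0, b} : Finset ℕ) ∈ Z) (hbc' : ({b, c} : Finset ℕ) ∈ Z)
    (hc0 : ({c, 0} : Finset ℕ) ∈ Z) (r α : I) :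
    HH hb hc hbc h0 hb' hc' h0b hbc' hc0 r α = hh hb hc hbc r α := rfl

/-- the two pieces together -/
noncomputable def Phi : C(Rz Z ⊕ (I × I), Rz (insert ({0, b, c} : Finset ℕ) Z)) where
  toFun := Sum.elim (incl (Finset.subset_insert ({0, b, c} : Finset ℕ) Z))
    (fun z => hh (Z := Z) hb hc hbc z.1 z.2)
  continuous_toFun := (incl _).continuous.sumElim (hh_cont hb hc hbc)

lemma Phi_surj (h0 : {0} ∈ Z) : Function.Surjective (Phi (Z := Z) hb hc hbc) := by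
  rintro ⟨y, hy0, s, hs, hs0, hs1⟩
  rw [Finset.mem_insert] at hs
  rcases hs with rfl | hs
  · rw [Finset.sum_insert (by simp [hb.symm, hc.symm]), Finset.sum_insert (by simp [hbc]),
      Finset.sum_singleton] at hs1
    have hy : y = tpt b c (y b) (y c) := by
      funext i
      by_cases h1 : i = 0
      · subst h1; simp [tpt]; linarith
      · by_cases h2 : i = b
        · subst h2; simp [tpt, h1]
        · by_cases h3 : i = c
          · subst h3; simp [tpt, h1, h2]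
          · rw [hs0 i (by simp [h1, h2, h3])]; simp [tpt, h1, h2, h3]
    rcases (add_nonneg (hy0 b) (hy0 c)).eq_or_lt with h | h
    · have e1 : y b = 0 := by linarith [hy0 b, hy0 c]
      have e2 : y c = 0 := by linarith [hy0 b, hy0 c]
      refine ⟨Sum.inl (vtx Z 0 h0), ?_⟩
      apply Subtype.ext
      change Pi.single 0 1 = y
      rw [hy, e1, e2, tpt_zero hb hc hbc]
    · obtain ⟨ρ, α, r0, r1, a0, a1, e1, e2⟩ := PQ_surj (hy0 b) (hy0 c) h
        (by linarith [hy0 0])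
      refine ⟨Sum.inr (⟨1 - ρ, by linarith, by linarith⟩, ⟨α, a0, a1⟩), ?_⟩
      apply Subtype.ext
      change tpt b c (PP (1 - (1 - ρ)) α) (QQ (1 - (1 - ρ)) α) = y
      rw [sub_sub_cancel, e1, e2]
      exact hy.symm
  · exact ⟨Sum.inl ⟨y, hy0, s, hs, hs0, hs1⟩, rfl⟩

lemma Phi_closed : IsClosedMap (Phi (Z := Z) hb hc hbc) := by
  apply IsClosedMap.sumElim
  · intro C hC
    obtain ⟨D, hD, rfl⟩ := isClosed_induced_iff.mp hC
    have e : (incl (Finset.subset_insert ({0, b, c} : Finset ℕ) Z)) ''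
        ((fun x : Rz Z => (x : ℕ → ℝ)) ⁻¹' D) =
        (fun x : Rz (insert ({0, b, c} : Finset ℕ) Z) => (x : ℕ → ℝ)) ⁻¹' (D ∩ Rz Z) := by
      ext y
      constructor
      · rintro ⟨x, hx, rfl⟩
        exact ⟨hx, x.2⟩
      · rintro ⟨h1, h2⟩
        exact ⟨⟨y.1, h2⟩, h1, rfl⟩
    change IsClosed ((incl (Finset.subset_insert ({0, b, c} : Finset ℕ) Z)) ''
        ((fun x : Rz Z => (x : ℕ → ℝ)) ⁻¹' D))
    rw [e]
    exact (hD.inter (isClosed_Rz Z)).preimage continuous_subtype_val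
  · exact (hh_cont hb hc hbc).isClosedMap

lemma Phi_quot (h0 : {0} ∈ Z) : IsQuotientMap (Phi (Z := Z) hb hc hbc) :=
  (Phi_closed hb hc hbc).isQuotientMap (Phi (Z := Z) hb hc hbc).continuous (Phi_surj hb hc hbc h0)

/-- data for gluing -/
structure Datum (γ : I → Rz Z) (x0 : Rz Z) {Y : Type} [TopologicalSpace Y] (f : C(Rz Z, Y))
    (k : I × I → Y) : Prop where
  cont : Continuous k
  zero : ∀ α, k (0, α) = f (γ α)
  one : ∀ α, k (1, α) = f x0
  left : ∀ r, k (r, 0) = f x0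
  right : ∀ r, k (r, 1) = f x0

omit hb hc hbc in
/-- interior points of the square -/
def Inner (z : I × I) : Prop := z.1 ≠ 0 ∧ z.1 ≠ 1 ∧ z.2 ≠ 0 ∧ z.2 ≠ 1

lemma Inner.not_mem (hZ : IsComplex Z) (h : ({0, b, c} : Finset ℕ) ∉ Z) {z : I × I}
    (hz : Inner z) (x : Rz Z) : incl (Finset.subset_insert ({0, b, c} : Finset ℕ) Z) x ≠
      hh hb hc hbc z.1 z.2 := by
  intro e
  obtain ⟨h1, h2, h3, h4⟩ := hz
  have e' : x.1 = tpt b c (PP (1 - z.1) z.2) (QQ (1 - z.1) z.2) := congrArg Subtype.val e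
  have p := PQ_pos (ρ := 1 - (z.1 : ℝ)) (α := z.2)
    (by have := unitInterval.lt_one_iff_ne_one.mpr h2
        have : (z.1 : ℝ) < 1 := this
        linarith)
    (by have := unitInterval.pos_iff_ne_zero.mpr h1
        have : (0 : ℝ) < z.1 := this
        linarith)
    (unitInterval.pos_iff_ne_zero.mpr h3) (unitInterval.lt_one_iff_ne_one.mpr h4)
  exact tpt_not_mem hb hc hbc hZ h p.1 p.2.1 p.2.2 (e' ▸ x.2)

lemma Inner.inj {z w : I × I} (hz : Inner z) (hw : Inner w)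
    (h : hh (Z := Z) hb hc hbc z.1 z.2 = hh hb hc hbc w.1 w.2) : z = w := by
  have e : tpt b c (PP (1 - z.1) z.2) (QQ (1 - z.1) z.2) =
      tpt b c (PP (1 - w.1) w.2) (QQ (1 - w.1) w.2) := congrArg Subtype.val h
  have e1 := congrFun e b
  have e2 := congrFun e c
  rw [tpt_b hb hc hbc, tpt_b hb hc hbc] at e1
  rw [tpt_c hb hc hbc, tpt_c hb hc hbc] at e2
  have P : ∀ r : I, r ≠ 0 → (0 : ℝ) < r := fun r hr => unitInterval.pos_iff_ne_zero.mpr hr
  have Q : ∀ r : I, r ≠ 1 → (r : ℝ) < 1 := fun r hr => unitInterval.lt_one_iff_ne_one.mpr hr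
  obtain ⟨a1, a2⟩ := PQ_inj (by linarith [Q _ hz.2.1]) (P _ hz.2.2.1) (Q _ hz.2.2.2)
    (by linarith [Q _ hw.2.1]) (P _ hw.2.2.1) (Q _ hw.2.2.2) e1 e2
  apply Prod.ext
  · apply Subtype.ext; linarith
  · exact Subtype.ext a2

lemma bdry (h0 : {0} ∈ Z) (hb' : {b} ∈ Z) (hc' : {c} ∈ Z)
    (h0b : ({0, b} : Finset ℕ) ∈ Z) (hbc' : ({b, c} : Finset ℕ) ∈ Z)
    (hc0 : ({c, 0} : Finset ℕ) ∈ Z) {Y : Type} [TopologicalSpace Y] {f : C(Rz Z, Y)}
    {k : I × I → Y} (D : Datum (bd h0 hb' hc' h0b hbc' hc0) (vtx Z 0 h0) f k) {z : I × I}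
    (hz : ¬ Inner z) : ∃ x : Rz Z, incl (Finset.subset_insert ({0, b, c} : Finset ℕ) Z) x =
      hh hb hc hbc z.1 z.2 ∧ k z = f x := by
  obtain ⟨r, α⟩ := z
  by_cases h1 : r = 0
  · subst h1
    refine ⟨bd h0 hb' hc' h0b hbc' hc0 α, ?_, D.zero α⟩
    rw [← HH_apply hb hc hbc h0 hb' hc' h0b hbc' hc0, Path.source]
    rfl
  by_cases h2 : r = 1
  · subst h2
    refine ⟨vtx Z 0 h0, ?_, D.one α⟩
    rw [← HH_apply hb hc hbc h0 hb' hc' h0b hbc' hc0, Path.target]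
    rfl
  by_cases h3 : α = 0
  · subst h3
    refine ⟨vtx Z 0 h0, ?_, D.left r⟩
    rw [← HH_apply hb hc hbc h0 hb' hc' h0b hbc' hc0, Path.source]
  by_cases h4 : α = 1
  · subst h4
    refine ⟨vtx Z 0 h0, ?_, D.right r⟩
    rw [← HH_apply hb hc hbc h0 hb' hc' h0b hbc' hc0, Path.target]
  exact absurd ⟨h1, h2, h3, h4⟩ hz

lemma glue (hZ : IsComplex Z) (hn : ({0, b, c} : Finset ℕ) ∉ Z)
    (h0 : {0} ∈ Z) (hb' : {b} ∈ Z) (hc' : {c} ∈ Z)
    (h0b : ({0, b} : Finset ℕ) ∈ Z) (hbc' : ({b, c} : Finset ℕ) ∈ Z)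
    (hc0 : ({c, 0} : Finset ℕ) ∈ Z) {Y : Type} [TopologicalSpace Y] (f : C(Rz Z, Y))
    (k : I × I → Y) (D : Datum (bd h0 hb' hc' h0b hbc' hc0) (vtx Z 0 h0) f k) :
    ∃ g : C(Rz (insert ({0, b, c} : Finset ℕ) Z), Y),
      (∀ a, g (incl (Finset.subset_insert ({0, b, c} : Finset ℕ) Z) a) = f a) ∧
      ∀ r α, g (hh hb hc hbc r α) = k (r, α) := by
  let F : C(Rz Z ⊕ (I × I), Y) := ⟨Sum.elim f k, f.continuous.sumElim D.cont⟩
  have key : ∀ (x : Rz Z) (z : I × I),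
      incl (Finset.subset_insert ({0, b, c} : Finset ℕ) Z) x = hh hb hc hbc z.1 z.2 →
      f x = k z := by
    intro x z e
    by_cases hz : Inner z
    · exact absurd e (hz.not_mem hb hc hbc hZ hn x)
    · obtain ⟨y, hy1, hy2⟩ := bdry hb hc hbc h0 hb' hc' h0b hbc' hc0 D hz
      rw [hy2]
      rw [← hy1] at e
      congr 1
      apply Subtype.ext
      exact congrArg (fun q : Rz (insert ({0, b, c} : Finset ℕ) Z) => q.1) e
  have hF : Function.FactorsThrough F (Phi (Z := Z) hb hc hbc) := by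
    rintro (x | z) (y | w) h
    · have : x = y := by
        apply Subtype.ext
        exact congrArg (fun q : Rz (insert ({0, b, c} : Finset ℕ) Z) => q.1) h
      rw [this]
    · exact key x w h
    · exact (key y z h.symm).symm
    · change hh hb hc hbc z.1 z.2 = hh hb hc hbc w.1 w.2 at h
      change k z = k w
      by_cases hz : Inner z
      · by_cases hw : Inner w
        · rw [Inner.inj hb hc hbc hz hw h]
        · obtain ⟨y, hy1, hy2⟩ := bdry hb hc hbc h0 hb' hc' h0b hbc' hc0 D hw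
          rw [hy2, key y z (hy1.trans h.symm)]
      · obtain ⟨y, hy1, hy2⟩ := bdry hb hc hbc h0 hb' hc' h0b hbc' hc0 D hz
        rw [hy2, key y w (hy1.trans h)]
  have q := Phi_quot (Z := Z) hb hc hbc h0
  have hl := q.lift_comp F hF
  refine ⟨q.lift F hF, fun a => ?_, fun r α => ?_⟩
  · exact congrArg (fun G : C(Rz Z ⊕ (I × I), Y) => G (Sum.inl a)) hl
  · exact congrArg (fun G : C(Rz Z ⊕ (I × I), Y) => G (Sum.inr (r, α))) hl

end

/-- P2 -/
theorem cell : CellStatement := by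
  intro Z b c h0 hb' hc' h0b hbc' hc0 hZ hb hc hbc hn
  refine ⟨bd h0 hb' hc' h0b hbc' hc0, HH hb hc hbc h0 hb' hc' h0b hbc' hc0,
    Path.Homotopic.refl _, ⟨?_, ?_⟩⟩
  · intro Y _ f G
    have D : Datum (bd h0 hb' hc' h0b hbc' hc0) (vtx Z 0 h0) f (fun z => G z.1 z.2) := by
      refine ⟨?_, fun α => ?_, fun α => ?_, fun r => ?_, fun r => ?_⟩
      · exact Path.continuous_uncurry_iff.mpr G.continuous
      · change G 0 α = _
        rw [G.source]; rfl
      · change G 1 α = _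
        rw [G.target]; rfl
      · change G r 0 = _
        rw [(G r).source]
      · change G r 1 = _
        rw [(G r).target]
    obtain ⟨g, g1, g2⟩ := glue hb hc hbc hZ hn h0 hb' hc' h0b hbc' hc0 f _ D
    exact ⟨g, g1, g2⟩
  · intro Y _ f g g' G G' hg hg' hG hG' hK
    obtain ⟨K⟩ := hK
    have cK : Continuous (fun w : (I × I) × I => K (w.2, w.1.1) w.1.2) := by
      have h1 : Continuous (fun v : (I × I) × I => K v.1 v.2) :=
        Path.continuous_uncurry_iff.mpr K.continuous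
      exact h1.comp (by fun_prop : Continuous (fun w : (I × I) × I => ((w.2, w.1.1), w.1.2)))
    let f' : C(Rz Z, C(I, Y)) := ⟨fun a => ContinuousMap.const I (f a), by
      apply ContinuousMap.continuous_of_continuous_uncurry
      exact f.continuous.comp continuous_fst⟩
    let k' : I × I → C(I, Y) := fun z => ⟨fun s => K (s, z.1) z.2,
      cK.comp (Continuous.prodMk_right z)⟩
    have D : Datum (bd h0 hb' hc' h0b hbc' hc0) (vtx Z 0 h0) f' k' := by
      refine ⟨?_, fun α => ?_, fun α => ?_, fun r => ?_, fun r => ?_⟩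
      · apply ContinuousMap.continuous_of_continuous_uncurry
        exact cK
      · ext s
        change K (s, 0) α = f _
        rw [Path.Homotopy.source]
        rfl
      · ext s
        change K (s, 1) α = f _
        rw [Path.Homotopy.target]
        rfl
      · ext s
        change K (s, r) 0 = f _
        rw [(K (s, r)).source]
      · ext s
        change K (s, r) 1 = f _
        rw [(K (s, r)).target]
    obtain ⟨gg, g1, g2⟩ := glue hb hc hbc hZ hn h0 hb' hc' h0b hbc' hc0 f' k' D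
    have surj := Phi_surj (Z := Z) hb hc hbc h0
    refine ⟨⟨⟨fun p => gg p.2 p.1, ?_⟩, ?_, ?_⟩⟩
    · exact continuous_eval.comp (by fun_prop :
        Continuous (fun p : I × Rz (insert ({0, b, c} : Finset ℕ) Z) => (gg p.2, p.1)))
    · intro x
      obtain ⟨(a | z), rfl⟩ := surj x
      · change gg (incl (Finset.subset_insert ({0, b, c} : Finset ℕ) Z) a) 0 =
          g (incl (Finset.subset_insert ({0, b, c} : Finset ℕ) Z) a)
        rw [g1, hg]; rfl
      · change gg (hh hb hc hbc z.1 z.2) 0 = g (hh hb hc hbc z.1 z.2)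
        rw [g2]
        change K (0, z.1) z.2 = g (HH hb hc hbc h0 hb' hc' h0b hbc' hc0 z.1 z.2)
        rw [hG]
        simp
    · intro x
      obtain ⟨(a | z), rfl⟩ := surj x
      · change gg (incl (Finset.subset_insert ({0, b, c} : Finset ℕ) Z) a) 1 =
          g' (incl (Finset.subset_insert ({0, b, c} : Finset ℕ) Z) a)
        rw [g1, hg']; rfl
      · change gg (hh hb hc hbc z.1 z.2) 1 = g' (hh hb hc hbc z.1 z.2)
        rw [g2]
        change K (1, z.1) z.2 = g' (HH hb hc hbc h0 hb' hc' h0b hbc' hc0 z.1 z.2)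
        rw [hG']
        simp

end Pool.Agent.Lib.MP_50ef00_gt.H88
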